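import Mathlib

/-!
# MP_baa74b_lc: consecutive memory sizes are separated in black-box optimisation
-/

set_option autoImplicit false

namespace Pool.Agent.Results.MP_baa74b_lc.MemorySeparation

open scoped ENNReal
open Classical

/-- A `(μ+1)` memory-restricted black-box algorithm on the search space `S`. -/
structure Algorithm (S : Type) (μ : ℕ) where
  /-- The distribution of the initial sample. -/
  init : PMF (Fin μ → S)
  /-- The distribution of the next query, as a function of the stored multiset. -/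
  query : Multiset (S × ℝ) → PMF S
  /-- The distribution of the pair which is removed, as a function of the current multiset. -/
  discard : Multiset (S × ℝ) → PMF (S × ℝ)
  discard_mem : ∀ X, X ≠ 0 → ∀ d ∈ (discard X).support, d ∈ X

variable {S : Type} {μ : ℕ}

/-- `x` is a maximiser of `f`. -/
def IsMaximiser (f : S → ℝ) (x : S) : Prop := ∀ y, f y ≤ f x

/-- The stored multiset after the initial sample `x`. -/
def memory (f : S → ℝ) (x : Fin μ → S) : Multiset (S × ℝ) :=
  Finset.univ.val.map fun i => (x i, f (x i))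

/-- Remove one copy of the pair `d` from the multiset `X`. -/
noncomputable def removePair (X : Multiset (S × ℝ)) (d : S × ℝ) : Multiset (S × ℝ) := X.erase d

/-- The probability that none of the next `k` queries is a maximiser of `f`, when the stored
multiset is `X`. -/
noncomputable def missRounds (A : Algorithm S μ) (f : S → ℝ) : ℕ → Multiset (S × ℝ) → ℝ≥0∞
  | 0, _ => 1
  | k + 1, X => ∑' y, A.query X y * (if IsMaximiser f y then 0 else
      ∑' d, A.discard ((y, f y) ::ₘ X) d * missRounds A f k (removePair ((y, f y) ::ₘ X) d))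

/-- The probability that none of the first `t` queries is a maximiser of `f`. -/
noncomputable def missProb (A : Algorithm S μ) (f : S → ℝ) (t : ℕ) : ℝ≥0∞ :=
  ∑' x, A.init x * (if ∃ i : Fin μ, i.val < t ∧ IsMaximiser f (x i) then 0 else
    missRounds A f (t - μ) (memory f x))

/-- The expected number of queries up to and including the first query of a maximiser. -/
noncomputable def expectedTime (A : Algorithm S μ) (f : S → ℝ) : ℝ≥0∞ := ∑' t, missProb A f t

/-- The `(μ+1)` memory-restricted black-box complexity of the class `F`. -/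
noncomputable def complexity (μ : ℕ) (F : Set (S → ℝ)) : ℝ≥0∞ :=
  ⨅ A : Algorithm S μ, ⨆ f ∈ F, expectedTime A f

/-! ### General facts -/

theorem tsum_pmf_mul_le {α : Type} (p : PMF α) (g : α → ℝ≥0∞) (hg : ∀ a, g a ≤ 1) :
    ∑' a, p a * g a ≤ 1 := by
  calc ∑' a, p a * g a ≤ ∑' a, p a * 1 :=
        ENNReal.tsum_le_tsum fun a => mul_le_mul_right (hg a) _
    _ = 1 := by simp [p.tsum_coe]

theorem missRounds_succ_le (A : Algorithm S μ) (f : S → ℝ) (k : ℕ) :
    ∀ X, missRounds A f (k + 1) X ≤ missRounds A f k X := by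
  induction k with
  | zero =>
    intro X
    simp only [missRounds]
    apply tsum_pmf_mul_le
    intro y
    split_ifs
    · exact zero_le_one
    · exact tsum_pmf_mul_le _ _ fun _ => le_rfl
  | succ k ih =>
    intro X
    rw [missRounds, missRounds]
    refine ENNReal.tsum_le_tsum fun y => mul_le_mul_right ?_ _
    split_ifs
    · exact le_rfl
    · exact ENNReal.tsum_le_tsum fun d => mul_le_mul_right (ih _) _

theorem missRounds_antitone (A : Algorithm S μ) (f : S → ℝ) (X : Multiset (S × ℝ)) :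
    Antitone fun k => missRounds A f k X :=
  antitone_nat_of_succ_le fun k => missRounds_succ_le A f k X

theorem missRounds_le_one (A : Algorithm S μ) (f : S → ℝ) (k : ℕ) (X : Multiset (S × ℝ)) :
    missRounds A f k X ≤ 1 := by
  have := missRounds_antitone A f X (Nat.zero_le k)
  simpa [missRounds] using this

theorem missProb_antitone (A : Algorithm S μ) (f : S → ℝ) : Antitone (missProb A f) := by
  intro t t' htt
  unfold missProb
  refine ENNReal.tsum_le_tsum fun x => mul_le_mul_right ?_ _
  by_cases h : ∃ i : Fin μ, i.val < t ∧ IsMaximiser f (x i)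
  · have h' : ∃ i : Fin μ, i.val < t' ∧ IsMaximiser f (x i) := by
      obtain ⟨i, h1, h2⟩ := h
      exact ⟨i, by omega, h2⟩
    rw [if_pos h, if_pos h']
  · rw [if_neg h]
    split_ifs
    · exact zero_le
    · exact missRounds_antitone A f _ (by omega)

theorem missProb_le_one (A : Algorithm S μ) (f : S → ℝ) (t : ℕ) : missProb A f t ≤ 1 := by
  apply tsum_pmf_mul_le
  intro x
  split_ifs
  · exact zero_le_one
  · exact missRounds_le_one A f _ _

theorem le_expectedTime (A : Algorithm S μ) (f : S → ℝ) (n : ℕ) :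
    (n + 1 : ℕ) * missProb A f n ≤ expectedTime A f := by
  calc ((n + 1 : ℕ) : ℝ≥0∞) * missProb A f n
      = ∑ t ∈ Finset.range (n + 1), missProb A f n := by simp
    _ ≤ ∑ t ∈ Finset.range (n + 1), missProb A f t :=
        Finset.sum_le_sum fun t ht => missProb_antitone A f (by
          rw [Finset.mem_range] at ht
          omega)
    _ ≤ expectedTime A f := ENNReal.sum_le_tsum _

/-! ### The class -/

/-- The search space: `μ + 1` clues and `N` candidates. -/
abbrev Pt (μ N : ℕ) : Type := Fin (μ + 1) ⊕ ZMod N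

/-- The secrets. -/
abbrev Sec (μ N : ℕ) : Type := Fin (μ + 1) → ZMod N

variable {N : ℕ}

/-- The optimal candidate. -/
def opt (s : Sec μ N) : ZMod N := ∑ i, s i

/-- The values, except that the optimal candidate looks like the other candidates. -/
noncomputable def clean (s : Sec μ N) : Pt μ N → ℝ
  | .inl i => ((s i).val : ℝ)
  | .inr _ => -1

/-- The function with secret `s`. -/
noncomputable def fn (s : Sec μ N) : Pt μ N → ℝ
  | .inl i => ((s i).val : ℝ)
  | .inr c => if c = opt s then N else -1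

theorem fn_eq_clean (s : Sec μ N) (z : Pt μ N) (hz : z ≠ .inr (opt s)) : fn s z = clean s z := by
  rcases z with i | c
  · rfl
  · simp only [fn, clean]
    rw [if_neg fun h => hz (by rw [h])]

variable [NeZero N]

set_option linter.unusedSectionVars false

theorem isMaximiser_iff (s : Sec μ N) (x : Pt μ N) :
    IsMaximiser (fn s) x ↔ x = .inr (opt s) := by
  have hopt : fn s (.inr (opt s)) = N := by simp [fn]
  constructor
  · intro h
    have h1 := h (.inr (opt s))
    rw [hopt] at h1
    rcases x with i | c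
    · simp only [fn] at h1
      have h2 : (s i).val < N := ZMod.val_lt _
      have h3 : ((s i).val : ℝ) < N := by exact_mod_cast h2
      linarith
    · simp only [fn] at h1
      split_ifs at h1 with h2
      · rw [h2]
      · have : (0 : ℝ) ≤ N := Nat.cast_nonneg _
        linarith
  · rintro rfl
    intro y
    rw [hopt]
    rcases y with i | c
    · simp only [fn]
      have h2 : (s i).val < N := ZMod.val_lt _
      have h3 : ((s i).val : ℝ) < N := by exact_mod_cast h2
      exact h3.le
    · simp only [fn]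
      split_ifs
      · exact le_rfl
      · have : (0 : ℝ) ≤ N := Nat.cast_nonneg _
        linarith

/-! ### The upper bound -/

/-- The algorithm with enough memory. -/
noncomputable def good (μ N : ℕ) : Algorithm (Pt μ N) (μ + 1) where
  init := PMF.pure fun i => .inl i
  query X := PMF.pure (.inr ((X.map fun p => ((⌊p.2⌋₊ : ℕ) : ZMod N)).sum))
  discard X := if h : ∃ d, d ∈ X then PMF.pure h.choose else PMF.pure (.inl 0, 0)
  discard_mem X hX d hd := by
    have h : ∃ d, d ∈ X := Multiset.exists_mem_of_ne_zero hX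
    rw [dif_pos h, PMF.support_pure, Set.mem_singleton_iff] at hd
    rw [hd]
    exact h.choose_spec

theorem good_time (s : Sec μ N) : expectedTime (good μ N) (fn s) ≤ (μ + 2 : ℕ) := by
  have hzero : ∀ t, μ + 2 ≤ t → missProb (good μ N) (fn s) t = 0 := by
    intro t ht
    obtain ⟨k, hk⟩ : ∃ k, t - (μ + 1) = k + 1 := ⟨t - (μ + 2), by omega⟩
    unfold missProb
    rw [ENNReal.tsum_eq_zero]
    intro x
    simp only [good, PMF.pure_apply]
    split_ifs with h1 h2
    · simp
    · rw [hk, missRounds, one_mul, ENNReal.tsum_eq_zero]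
      intro y
      simp only [PMF.pure_apply]
      by_cases hy : y = Sum.inr ((Multiset.map (fun p : Pt μ N × ℝ => ((⌊p.2⌋₊ : ℕ) : ZMod N))
          (memory (fn s) x)).sum)
      · rw [if_pos hy, one_mul, if_pos]
        rw [isMaximiser_iff, hy]
        congr 1
        subst h1
        unfold memory opt
        rw [Multiset.map_map]
        simp only [Function.comp_def, fn, Nat.floor_natCast]
        change ∑ i : Fin (μ + 1), (((s i).val : ℕ) : ZMod N) = ∑ i, s i
        exact Finset.sum_congr rfl fun i _ => ZMod.natCast_zmod_val (s i)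
      · rw [if_neg hy, zero_mul]
    · simp
    · simp
  unfold expectedTime
  rw [tsum_eq_sum (s := Finset.range (μ + 2)) fun t ht => hzero t (by
    rw [Finset.mem_range] at ht
    omega)]
  calc ∑ t ∈ Finset.range (μ + 2), missProb (good μ N) (fn s) t
      ≤ ∑ t ∈ Finset.range (μ + 2), 1 := Finset.sum_le_sum fun t _ => missProb_le_one _ _ _
    _ = (μ + 2 : ℕ) := by simp

/-! ### The lower bound -/

/-- The key estimate: information which does not depend on the `j`-th part of the secret does not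
help to find the optimal candidate. -/
theorem shift_lemma (j : Fin (μ + 1)) (G : Sec μ N → ZMod N → ℝ≥0∞)
    (hinv : ∀ s δ, G (s + Pi.single j δ) = G s) (hG : ∀ s, ∑' c, G s c ≤ 1) :
    (N : ℝ≥0∞) * ∑' s, G s (opt s) ≤ (Fintype.card (Sec μ N) : ℝ≥0∞) := by
  have h1 : (N : ℝ≥0∞) * ∑' s, G s (opt s) = ∑' _δ : ZMod N, ∑' s, G s (opt s) := by
    rw [ENNReal.tsum_const]
    simp [ZMod.card]
  have h2 : ∀ δ : ZMod N, ∑' s, G s (opt s) = ∑' s, G s (opt s + δ) := by
    intro δ
    rw [← (Equiv.addRight (Pi.single j δ : Sec μ N)).tsum_eq fun s => G s (opt s)]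
    refine tsum_congr fun s => ?_
    simp only [Equiv.coe_addRight]
    rw [hinv]
    congr 1
    unfold opt
    simp [Finset.sum_add_distrib]
  rw [h1, tsum_congr h2, ENNReal.tsum_comm]
  have h3 : ∀ s : Sec μ N, ∑' δ, G s (opt s + δ) ≤ 1 := by
    intro s
    have := (Equiv.addLeft (opt s)).tsum_eq fun c => G s c
    simp only [Equiv.coe_addLeft] at this
    rw [this]
    exact hG s
  calc ∑' s, ∑' δ, G s (opt s + δ) ≤ ∑' _s : Sec μ N, (1 : ℝ≥0∞) := ENNReal.tsum_le_tsum h3
    _ = _ := by
      rw [ENNReal.tsum_const]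
      simp

/-- The memory with points `P`, with the optimal candidate in disguise. -/
noncomputable def mem (s : Sec μ N) (P : Multiset (Pt μ N)) : Multiset (Pt μ N × ℝ) :=
  P.map fun z => (z, clean s z)

theorem mem_shift (s : Sec μ N) (P : Multiset (Pt μ N)) (j : Fin (μ + 1)) (hj : .inl j ∉ P)
    (δ : ZMod N) : mem (s + Pi.single j δ) P = mem s P := by
  unfold mem
  apply Multiset.map_congr rfl
  intro z hz
  rcases z with i | c
  · have hij : i ≠ j := by
      rintro rfl
      exact hj hz
    simp [clean, hij]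
  · rfl

theorem exists_missing (P : Multiset (Pt μ N)) (hP : Multiset.card P ≤ μ) :
    ∃ j : Fin (μ + 1), Sum.inl j ∉ P := by
  by_contra hcon
  push Not at hcon
  have h1 : (Finset.univ.image (Sum.inl : Fin (μ + 1) → Pt μ N)) ⊆ P.toFinset := by
    intro z hz
    rw [Finset.mem_image] at hz
    obtain ⟨i, -, rfl⟩ := hz
    rw [Multiset.mem_toFinset]
    exact hcon i
  have h2 := Finset.card_le_card h1
  rw [Finset.card_image_of_injective _ Sum.inl_injective, Finset.card_univ, Fintype.card_fin] at h2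
  have h3 := Multiset.toFinset_card_le P
  omega

theorem tsum_inr_le {p : PMF (Pt μ N)} : ∑' c, p (Sum.inr c) ≤ 1 := by
  calc ∑' c, p (Sum.inr c) ≤ ∑' z, p z :=
        ENNReal.tsum_comp_le_tsum_of_injective Sum.inr_injective _
    _ = 1 := p.tsum_coe

/-- Guessing from a memory of at most `μ` points. -/
theorem guess (A : Algorithm (Pt μ N) μ) (P : Multiset (Pt μ N)) (hP : Multiset.card P ≤ μ) :
    (N : ℝ≥0∞) * ∑' s, A.query (mem s P) (.inr (opt s)) ≤ (Fintype.card (Sec μ N) : ℝ≥0∞) := by
  obtain ⟨j, hj⟩ := exists_missing P hP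
  exact shift_lemma j (fun s c => A.query (mem s P) (.inr c))
    (fun s δ => by
      funext c
      rw [mem_shift s P j hj])
    fun s => tsum_inr_le

/-- The probability that the second query finds the optimum, when the first query is `y`. -/
noncomputable def second (A : Algorithm (Pt μ N) μ) (s : Sec μ N) (P : Multiset (Pt μ N))
    (y : Pt μ N) : ℝ≥0∞ :=
  ∑' d, A.discard (mem s (y ::ₘ P)) d * A.query (removePair (mem s (y ::ₘ P)) d) (.inr (opt s))

/-- Upper bound for the probability that one of the first `μ + 2` queries is the optimum. -/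
noncomputable def hit (A : Algorithm (Pt μ N) μ) (s : Sec μ N) (x : Fin μ → Pt μ N) : ℝ≥0∞ :=
  (∑ i, if x i = .inr (opt s) then 1 else 0) +
    (A.query (mem s (Finset.univ.val.map x)) (.inr (opt s)) +
      ∑' y, A.query (mem s (Finset.univ.val.map x)) y * second A s (Finset.univ.val.map x) y)

theorem mem_cons (s : Sec μ N) (P : Multiset (Pt μ N)) (y : Pt μ N) :
    mem s (y ::ₘ P) = (y, clean s y) ::ₘ mem s P := by
  simp [mem]

theorem missRounds_one (A : Algorithm (Pt μ N) μ) (s : Sec μ N) (X : Multiset (Pt μ N × ℝ)) :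
    missRounds A (fn s) 1 X + A.query X (.inr (opt s)) = 1 := by
  rw [missRounds]
  have h1 : A.query X (.inr (opt s)) =
      ∑' y, A.query X y * (if IsMaximiser (fn s) y then 1 else 0) := by
    simp only [isMaximiser_iff, mul_ite, mul_one, mul_zero]
    rw [tsum_ite_eq]
  rw [h1, ← ENNReal.tsum_add]
  have h2 : ∀ y, A.query X y * (if IsMaximiser (fn s) y then 0 else
      ∑' d, A.discard ((y, fn s y) ::ₘ X) d *
        missRounds A (fn s) 0 (removePair ((y, fn s y) ::ₘ X) d)) +
      A.query X y * (if IsMaximiser (fn s) y then 1 else 0) = A.query X y := by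
    intro y
    split_ifs
    · simp
    · simp [missRounds, PMF.tsum_coe]
  exact (tsum_congr h2).trans (A.query X).tsum_coe

theorem miss_add_hit (A : Algorithm (Pt μ N) μ) (s : Sec μ N) :
    1 ≤ missProb A (fn s) (μ + 2) + ∑' x, A.init x * hit A s x := by
  unfold missProb
  rw [← ENNReal.tsum_add, ← A.init.tsum_coe]
  refine ENNReal.tsum_le_tsum fun x => ?_
  rw [← mul_add]
  conv_lhs => rw [← mul_one (A.init x)]
  refine mul_le_mul_right ?_ _
  by_cases hx : ∃ i : Fin μ, x i = .inr (opt s)
  · obtain ⟨i, hi⟩ := hx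
    refine le_trans ?_ le_add_self
    unfold hit
    refine le_trans ?_ le_self_add
    calc (1 : ℝ≥0∞) = if x i = .inr (opt s) then 1 else 0 := by rw [if_pos hi]
      _ ≤ _ := Finset.single_le_sum (f := fun i => if x i = .inr (opt s) then (1 : ℝ≥0∞) else 0)
          (fun _ _ => zero_le) (Finset.mem_univ i)
  · have h1 : ¬ ∃ i : Fin μ, i.val < μ + 2 ∧ IsMaximiser (fn s) (x i) := by
      rintro ⟨i, -, hi⟩
      rw [isMaximiser_iff] at hi
      exact hx ⟨i, hi⟩
    rw [if_neg h1]
    have hmem : memory (fn s) x = mem s (Finset.univ.val.map x) := by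
      unfold memory mem
      rw [Multiset.map_map]
      apply Multiset.map_congr rfl
      intro i _
      simp only [Function.comp_apply]
      rw [fn_eq_clean]
      exact fun h => hx ⟨i, h⟩
    rw [hmem]
    set P := Finset.univ.val.map x with hP
    have h2 : μ + 2 - μ = 1 + 1 := by omega
    rw [h2, missRounds]
    unfold hit
    rw [← hP]
    have h0 : ∀ a b c : ℝ≥0∞, 1 ≤ a + c → 1 ≤ a + (b + c) := fun a b c h =>
      h.trans (add_le_add le_rfl le_add_self)
    apply h0
    have h3 : A.query (mem s P) (.inr (opt s)) =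
        ∑' y, A.query (mem s P) y * (if IsMaximiser (fn s) y then 1 else 0) := by
      simp only [isMaximiser_iff, mul_ite, mul_one, mul_zero]
      rw [tsum_ite_eq]
    rw [h3, ← ENNReal.tsum_add, ← ENNReal.tsum_add]
    refine (A.query (mem s P)).tsum_coe.symm.le.trans (ENNReal.tsum_le_tsum fun y => ?_)
    rw [← mul_add, ← mul_add]
    conv_lhs => rw [← mul_one (A.query (mem s P) y)]
    refine mul_le_mul_right ?_ _
    by_cases hy : IsMaximiser (fn s) y
    · rw [if_pos hy, if_pos hy, zero_add]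
      exact (le_self_add : (1 : ℝ≥0∞) ≤ 1 + second A s P y)
    · rw [if_neg hy, if_neg hy, zero_add]
      have hy' : y ≠ .inr (opt s) := fun h => hy ((isMaximiser_iff s y).2 h)
      rw [fn_eq_clean s y hy', ← mem_cons]
      unfold second
      rw [← ENNReal.tsum_add, ← (A.discard (mem s (y ::ₘ P))).tsum_coe]
      refine ENNReal.tsum_le_tsum fun d => ?_
      rw [← mul_add, missRounds_one, mul_one]

theorem second_inr (A : Algorithm (Pt μ N) μ) (P : Multiset (Pt μ N))
    (hP : Multiset.card P ≤ μ) :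
    (N : ℝ≥0∞) * ∑' s, ∑' c : ZMod N, A.query (mem s P) (.inr c) * second A s P (.inr c) ≤
      (Fintype.card (Sec μ N) : ℝ≥0∞) := by
  obtain ⟨j, hj⟩ := exists_missing P hP
  have hj' : ∀ c : ZMod N, Sum.inl j ∉ ((Sum.inr c : Pt μ N) ::ₘ P) := by
    intro c h
    rw [Multiset.mem_cons] at h
    rcases h with h | h
    · exact absurd h (by simp)
    · exact hj h
  refine shift_lemma j (fun s c' => ∑' c : ZMod N, A.query (mem s P) (.inr c) *
    ∑' d, A.discard (mem s (.inr c ::ₘ P)) d *
      A.query (removePair (mem s (.inr c ::ₘ P)) d) (.inr c')) ?_ ?_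
  · intro s δ
    funext c'
    refine tsum_congr fun c => ?_
    rw [mem_shift s P j hj, mem_shift s _ j (hj' c)]
  · intro s
    rw [ENNReal.tsum_comm]
    simp_rw [ENNReal.tsum_mul_left]
    calc ∑' c : ZMod N, A.query (mem s P) (.inr c) * ∑' c', ∑' d,
          A.discard (mem s (.inr c ::ₘ P)) d * A.query (removePair (mem s (.inr c ::ₘ P)) d) (.inr c')
        ≤ ∑' c : ZMod N, A.query (mem s P) (.inr c) * 1 := by
          refine ENNReal.tsum_le_tsum fun c => mul_le_mul_right ?_ _
          rw [ENNReal.tsum_comm]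
          simp_rw [ENNReal.tsum_mul_left]
          exact tsum_pmf_mul_le _ _ fun d => tsum_inr_le
      _ ≤ 1 := by
          simp only [mul_one]
          exact tsum_inr_le

theorem second_inl (A : Algorithm (Pt μ N) μ) (P : Multiset (Pt μ N))
    (hP : Multiset.card P ≤ μ) (j : Fin (μ + 1)) :
    (N : ℝ≥0∞) * ∑' s, second A s P (.inl j) ≤
      (μ + 1 : ℕ) * (Fintype.card (Sec μ N) : ℝ≥0∞) := by
  have hcard : Multiset.card (Sum.inl j ::ₘ P) ≤ μ + 1 := by
    rw [Multiset.card_cons]
    omega
  have hinj : ∀ s : Sec μ N, Function.Injective fun z : Pt μ N => (z, clean s z) :=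
    fun s z w h => congrArg Prod.fst h
  have h1 : ∀ s : Sec μ N, second A s P (.inl j) ≤
      ∑ z ∈ (Sum.inl j ::ₘ P).toFinset, A.query (mem s ((Sum.inl j ::ₘ P).erase z))
        (.inr (opt s)) := by
    intro s
    unfold second
    set Q := Sum.inl j ::ₘ P with hQ
    have h2 : ∀ d, d ∉ (Q.toFinset.image fun z => (z, clean s z)) →
        A.discard (mem s Q) d * A.query (removePair (mem s Q) d) (.inr (opt s)) = 0 := by
      intro d hd
      have h3 : d ∉ mem s Q := by
        intro h
        apply hd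
        unfold mem at h
        rw [Multiset.mem_map] at h
        obtain ⟨z, hz, rfl⟩ := h
        rw [Finset.mem_image]
        exact ⟨z, by rwa [Multiset.mem_toFinset], rfl⟩
      have h4 : mem s Q ≠ 0 := by
        rw [hQ, mem_cons]
        exact Multiset.cons_ne_zero
      have h5 : A.discard (mem s Q) d = 0 := by
        by_contra h6
        exact h3 (A.discard_mem _ h4 d ((PMF.mem_support_iff _ _).2 h6))
      rw [h5, zero_mul]
    rw [tsum_eq_sum h2, Finset.sum_image fun z _ w _ h => hinj s h]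
    refine Finset.sum_le_sum fun z hz => ?_
    have h6 : removePair (mem s Q) (z, clean s z) = mem s (Q.erase z) := by
      unfold removePair mem
      rw [Multiset.map_erase _ (hinj s)]
      congr 1
      exact Subsingleton.elim _ _
    rw [h6]
    calc _ ≤ 1 * A.query (mem s (Q.erase z)) (.inr (opt s)) :=
          mul_le_mul_left (PMF.coe_le_one _ _) _
      _ = _ := one_mul _
  calc (N : ℝ≥0∞) * ∑' s, second A s P (.inl j)
      ≤ (N : ℝ≥0∞) * ∑' s, ∑ z ∈ (Sum.inl j ::ₘ P).toFinset,
          A.query (mem s ((Sum.inl j ::ₘ P).erase z)) (.inr (opt s)) :=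
        mul_le_mul_right (ENNReal.tsum_le_tsum h1) _
    _ = ∑ z ∈ (Sum.inl j ::ₘ P).toFinset, (N : ℝ≥0∞) *
          ∑' s, A.query (mem s ((Sum.inl j ::ₘ P).erase z)) (.inr (opt s)) := by
        rw [Summable.tsum_finsetSum fun _ _ => ENNReal.summable, Finset.mul_sum]
    _ ≤ ∑ z ∈ (Sum.inl j ::ₘ P).toFinset, (Fintype.card (Sec μ N) : ℝ≥0∞) := by
        refine Finset.sum_le_sum fun z hz => guess A _ ?_
        rw [Multiset.mem_toFinset] at hz
        have := Multiset.card_erase_add_one hz
        omega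
    _ ≤ (μ + 1 : ℕ) * (Fintype.card (Sec μ N) : ℝ≥0∞) := by
        rw [Finset.sum_const, nsmul_eq_mul]
        refine mul_le_mul_left ?_ _
        exact_mod_cast (Multiset.toFinset_card_le _).trans hcard

/-- The constant in the lower bound. -/
def cst (μ : ℕ) : ℕ := μ + 2 + (μ + 1) * (μ + 1)

theorem sum_hit (A : Algorithm (Pt μ N) μ) (x : Fin μ → Pt μ N) :
    (N : ℝ≥0∞) * ∑' s, hit A s x ≤ cst μ * (Fintype.card (Sec μ N) : ℝ≥0∞) := by
  set P := Finset.univ.val.map x with hP
  have hcard : Multiset.card P ≤ μ := by simp [hP]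
  set W : ℝ≥0∞ := (Fintype.card (Sec μ N) : ℝ≥0∞) with hW
  have e1 : (N : ℝ≥0∞) * ∑' s : Sec μ N, ∑ i, (if x i = .inr (opt s) then (1 : ℝ≥0∞) else 0) ≤
      μ * W := by
    rw [Summable.tsum_finsetSum fun _ _ => ENNReal.summable, Finset.mul_sum]
    calc ∑ i : Fin μ, (N : ℝ≥0∞) * ∑' s : Sec μ N, (if x i = .inr (opt s) then (1 : ℝ≥0∞) else 0)
        ≤ ∑ i : Fin μ, W := by
          refine Finset.sum_le_sum fun i _ => ?_
          refine shift_lemma 0 (fun _ c => if x i = .inr c then (1 : ℝ≥0∞) else 0)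
            (fun _ _ => rfl) fun s => ?_
          rcases hxi : x i with a | c
          · simp
          · simp only [Sum.inr.injEq]
            rw [tsum_ite_eq']
      _ = μ * W := by simp
  have e2 : (N : ℝ≥0∞) * ∑' s : Sec μ N, A.query (mem s P) (.inr (opt s)) ≤ 1 * W := by
    rw [one_mul]
    exact guess A P hcard
  have e3 : (N : ℝ≥0∞) * ∑' s : Sec μ N, ∑' c : ZMod N, A.query (mem s P) (.inr c) *
      second A s P (.inr c) ≤ 1 * W := by
    rw [one_mul]
    exact second_inr A P hcard
  have e4 : (N : ℝ≥0∞) * ∑' s : Sec μ N, ∑' j : Fin (μ + 1), A.query (mem s P) (.inl j) *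
      second A s P (.inl j) ≤ ((μ + 1) * (μ + 1) : ℕ) * W := by
    rw [ENNReal.tsum_comm, ← ENNReal.tsum_mul_left, tsum_fintype]
    calc ∑ j : Fin (μ + 1), (N : ℝ≥0∞) * ∑' s : Sec μ N, A.query (mem s P) (.inl j) *
          second A s P (.inl j)
        ≤ ∑ j : Fin (μ + 1), ((μ + 1 : ℕ) : ℝ≥0∞) * W := by
          refine Finset.sum_le_sum fun j _ => ?_
          refine le_trans ?_ (second_inl A P hcard j)
          refine mul_le_mul_right (ENNReal.tsum_le_tsum fun s => ?_) _
          calc _ ≤ 1 * second A s P (.inl j) := mul_le_mul_left (PMF.coe_le_one _ _) _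
            _ = _ := one_mul _
      _ = ((μ + 1) * (μ + 1) : ℕ) * W := by
          rw [Finset.sum_const, nsmul_eq_mul, Finset.card_univ, Fintype.card_fin, ← mul_assoc]
          push_cast
          ring
  have hsplit : ∀ s : Sec μ N, ∑' y, A.query (mem s P) y * second A s P y =
      (∑' j : Fin (μ + 1), A.query (mem s P) (.inl j) * second A s P (.inl j)) +
        ∑' c : ZMod N, A.query (mem s P) (.inr c) * second A s P (.inr c) := by
    intro s
    rw [tsum_fintype, tsum_fintype, tsum_fintype, Fintype.sum_sum_type]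
  unfold hit
  rw [← hP]
  simp_rw [hsplit]
  rw [ENNReal.tsum_add, ENNReal.tsum_add, ENNReal.tsum_add, mul_add, mul_add, mul_add]
  calc _ ≤ (μ : ℝ≥0∞) * W + (1 * W + (((μ + 1) * (μ + 1) : ℕ) * W + 1 * W)) :=
        add_le_add e1 (add_le_add e2 (add_le_add e4 e3))
    _ = cst μ * W := by
      unfold cst
      push_cast
      ring

theorem lower_bound (A : Algorithm (Pt μ N) μ) (hN : N = 2 * ((μ + 3) * cst μ)) (L : ℝ≥0∞)
    (hL : ∀ s : Sec μ N, expectedTime A (fn s) ≤ L) : ((μ + 3 : ℕ) : ℝ≥0∞) ≤ L + 1 / 2 := by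
  set W : ℝ≥0∞ := (Fintype.card (Sec μ N) : ℝ≥0∞) with hW
  have hW0 : W ≠ 0 := by
    rw [hW]
    exact_mod_cast Fintype.card_ne_zero
  have hWt : W ≠ ⊤ := by
    rw [hW]
    exact ENNReal.natCast_ne_top _
  have hN0 : (N : ℝ≥0∞) ≠ 0 := by exact_mod_cast NeZero.ne N
  have hNt : (N : ℝ≥0∞) ≠ ⊤ := ENNReal.natCast_ne_top _
  -- the sum of the probabilities of a hit
  have h1 : (N : ℝ≥0∞) * ∑' s : Sec μ N, ∑' x, A.init x * hit A s x ≤ cst μ * W := by
    rw [ENNReal.tsum_comm, ← ENNReal.tsum_mul_left]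
    calc ∑' x, (N : ℝ≥0∞) * ∑' s : Sec μ N, A.init x * hit A s x
        = ∑' x, A.init x * ((N : ℝ≥0∞) * ∑' s : Sec μ N, hit A s x) := by
          refine tsum_congr fun x => ?_
          rw [ENNReal.tsum_mul_left]
          ring
      _ ≤ ∑' x, A.init x * (cst μ * W) :=
          ENNReal.tsum_le_tsum fun x => mul_le_mul_right (sum_hit A x) _
      _ = cst μ * W := by rw [ENNReal.tsum_mul_right, A.init.tsum_coe, one_mul]
  have h2 : ∀ s : Sec μ N, ((μ + 3 : ℕ) : ℝ≥0∞) ≤
      L + ((μ + 3 : ℕ) : ℝ≥0∞) * ∑' x, A.init x * hit A s x := by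
    intro s
    calc ((μ + 3 : ℕ) : ℝ≥0∞) = ((μ + 3 : ℕ) : ℝ≥0∞) * 1 := (mul_one _).symm
      _ ≤ ((μ + 3 : ℕ) : ℝ≥0∞) *
          (missProb A (fn s) (μ + 2) + ∑' x, A.init x * hit A s x) :=
          mul_le_mul_right (miss_add_hit A s) _
      _ = ((μ + 2 + 1 : ℕ) : ℝ≥0∞) * missProb A (fn s) (μ + 2) +
          ((μ + 3 : ℕ) : ℝ≥0∞) * ∑' x, A.init x * hit A s x := by rw [mul_add]
      _ ≤ _ := add_le_add_left ((le_expectedTime A (fn s) (μ + 2)).trans (hL s)) _
  have h3 : ∑' _s : Sec μ N, ((μ + 3 : ℕ) : ℝ≥0∞) ≤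
      ∑' s : Sec μ N, (L + ((μ + 3 : ℕ) : ℝ≥0∞) * ∑' x, A.init x * hit A s x) :=
    ENNReal.tsum_le_tsum h2
  rw [ENNReal.tsum_add, ENNReal.tsum_const, ENNReal.tsum_const, ENNReal.tsum_mul_left] at h3
  have hcardW : ((ENat.card (Sec μ N) : ℕ∞) : ℝ≥0∞) = W := by
    rw [hW]
    simp
  rw [hcardW] at h3
  -- multiply by N
  have h4 : (N : ℝ≥0∞) * (W * ((μ + 3 : ℕ) : ℝ≥0∞)) ≤
      (N : ℝ≥0∞) * (W * (L + 1 / 2)) := by
    calc (N : ℝ≥0∞) * (W * ((μ + 3 : ℕ) : ℝ≥0∞))
        ≤ (N : ℝ≥0∞) * (W * L + ((μ + 3 : ℕ) : ℝ≥0∞) *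
            ∑' s : Sec μ N, ∑' x, A.init x * hit A s x) := mul_le_mul_right h3 _
      _ = (N : ℝ≥0∞) * (W * L) + ((μ + 3 : ℕ) : ℝ≥0∞) *
            ((N : ℝ≥0∞) * ∑' s : Sec μ N, ∑' x, A.init x * hit A s x) := by ring
      _ ≤ (N : ℝ≥0∞) * (W * L) + ((μ + 3 : ℕ) : ℝ≥0∞) * (cst μ * W) :=
          add_le_add_right (mul_le_mul_right h1 _) _
      _ = (N : ℝ≥0∞) * (W * (L + 1 / 2)) := by
          have h5 : (N : ℝ≥0∞) * (1 / 2) = ((μ + 3 : ℕ) : ℝ≥0∞) * cst μ := by
            rw [hN]
            push_cast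
            rw [mul_comm (2 : ℝ≥0∞), mul_assoc, mul_one_div, ENNReal.div_self (by simp) (by simp),
              mul_one]
          rw [mul_add, mul_add, ← mul_assoc (N : ℝ≥0∞) W (1 / 2), mul_comm (N : ℝ≥0∞) W,
            mul_assoc W (N : ℝ≥0∞) (1 / 2), h5]
          ring
  have h6 := (ENNReal.mul_le_mul_iff_right hN0 hNt).1 h4
  exact (ENNReal.mul_le_mul_iff_right hW0 hWt).1 h6

/-- **Full answer to Q1.** For every `μ` (in particular for every `μ ≥ 2`) there are a finite search
space and a class of functions for which memory `μ + 1` is strictly better than memory `μ`. -/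
theorem result : ∀ μ : ℕ, ∃ (S : Type) (_ : Finite S) (F : Set (S → ℝ)),
    complexity (μ + 1) F < complexity μ F := by
  intro μ
  let N := 2 * ((μ + 3) * cst μ)
  have hNpos : 0 < N := by
    simp only [N, cst]
    positivity
  have : NeZero N := ⟨hNpos.ne'⟩
  refine ⟨Pt μ N, inferInstance, Set.range (fn (μ := μ) (N := N)), ?_⟩
  have hup : complexity (μ + 1) (Set.range (fn (μ := μ) (N := N))) ≤ (μ + 2 : ℕ) := by
    refine iInf_le_of_le (good μ N) ?_
    refine iSup₂_le ?_
    rintro _ ⟨s, rfl⟩
    exact good_time s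
  have hlow : ((μ + 3 : ℕ) : ℝ≥0∞) - 1 / 2 ≤
      complexity μ (Set.range (fn (μ := μ) (N := N))) := by
    refine le_iInf fun A => ?_
    rw [tsub_le_iff_right]
    refine lower_bound A rfl _ fun s => ?_
    exact le_iSup₂_of_le (fn s) ⟨s, rfl⟩ le_rfl
  refine hup.trans_lt (lt_of_lt_of_le ?_ hlow)
  rw [lt_tsub_iff_right]
  have h1 : ((μ + 3 : ℕ) : ℝ≥0∞) = ((μ + 2 : ℕ) : ℝ≥0∞) + 1 := by
    push_cast
    ring
  rw [h1, one_div]
  exact ENNReal.add_lt_add_left (ENNReal.natCast_ne_top _) ENNReal.one_half_lt_one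

end Pool.Agent.Results.MP_baa74b_lc.MemorySeparation
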